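import Mathlib

/-!
Positive isomorphisms between spaces of continuous functions on uncountable compact metric spaces.

For all uncountable compact metric spaces `K`, `L` there is a linear isomorphism
`T : C(K) → C(L)` with `T ≥ 0` and `T 1 = 1`.

* Milutin: for `K` uncountable compact metric and `M` compact metric there are positive unital
  `A : C(K) → C(M)` and `B : C(M) → C(K)` with `A B = 1` (Bernoulli averaging over bits).
* With `M = ℕ∞ × Z` one has `M ≃ M ⊕ Z`; a Neumann series shows that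
  `x ↦ (x / 3 + (2 / 3) B (shift (A x)), (A x)₀)` is an isomorphism `C(K) → C(K) × C(Z)` and that
  `(x, g) ↦ x / 3 + (2 / 3) B (unshift (A x, g))` is an isomorphism `C(K) × C(Z) → C(K)`.
* Compose `C(K) → C(K) × C(L) → C(L)`.
-/

set_option autoImplicit false

open MeasureTheory Topology Filter unitInterval

namespace Pool.Agent.Results.MP_cf3d36_an.PositiveIsomorphism

/-! ### Bernoulli averaging -/

/-- The product of Lebesgue measures. -/
noncomputable def P : Measure (ℕ → I) := Measure.infinitePi (fun _ => (volume : Measure I))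

instance : IsProbabilityMeasure P := by unfold P; infer_instance

/-- Bits: `1` if `u n < t n`. -/
noncomputable def bit (t : ℕ → ℝ) (u : ℕ → I) : ℕ → Bool := fun n => decide ((u n : ℝ) < t n)

lemma measurable_bit (t : ℕ → ℝ) : Measurable (bit t) := by
  refine measurable_pi_lambda _ fun n => ?_
  refine measurable_to_bool ?_
  have : (fun u => bit t u n) ⁻¹' {true} = {u | ((u n : I) : ℝ) < t n} := by
    ext u
    simp [bit]
  rw [this]
  exact measurableSet_lt (measurable_subtype_coe.comp (measurable_pi_apply n)) measurable_const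

lemma ae_ne (n : ℕ) (a : ℝ) : ∀ᵐ u ∂P, ((u n : I) : ℝ) ≠ a := by
  have h1 : ∀ᵐ x : I ∂volume, (x : ℝ) ≠ a := by
    by_cases ha : a ∈ I
    · have : ∀ᵐ x : I ∂volume, x ≠ ⟨a, ha⟩ := by
        rw [ae_iff]
        simp
      filter_upwards [this] with x hx h
      exact hx (Subtype.ext h)
    · exact Eventually.of_forall fun x h => ha (h ▸ x.2)
  have h2 := (measurePreserving_eval_infinitePi (fun _ : ℕ => (volume : Measure I)) n)
  exact h2.quasiMeasurePreserving.ae h1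

variable {Z : Type} [TopologicalSpace Z]

lemma continuous_avg [FirstCountableTopology Z] (τ : C(Z, ℕ → ℝ)) (h : C(ℕ → Bool, ℝ)) :
    Continuous fun z => ∫ u, h (bit (τ z) u) ∂P := by
  rw [continuous_iff_continuousAt]
  intro z₀
  refine continuousAt_of_dominated (bound := fun _ => ‖h‖) ?_ ?_ (integrable_const _) ?_
  · exact Eventually.of_forall fun z =>
      (h.continuous.measurable.comp (measurable_bit _)).aestronglyMeasurable
  · exact Eventually.of_forall fun z => Eventually.of_forall fun u => h.norm_coe_le_norm _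
  · have h1 : ∀ᵐ u ∂P, ∀ n, ((u n : I) : ℝ) ≠ τ z₀ n := ae_all_iff.2 fun n => ae_ne n _
    filter_upwards [h1] with u hu
    refine h.continuous.continuousAt.comp ?_
    refine continuousAt_pi.2 fun n => ?_
    have h2 : ContinuousAt (fun z => τ z n) z₀ :=
      ((continuous_apply n).comp τ.continuous).continuousAt
    rcases lt_or_gt_of_ne (hu n) with h3 | h3
    · have h4 : ∀ᶠ z in 𝓝 z₀, bit (τ z) u n = true := by
        filter_upwards [h2.eventually (lt_mem_nhds h3)] with z hz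
        exact decide_eq_true hz
      have h5 : bit (τ z₀) u n = true := decide_eq_true h3
      change Tendsto _ _ (𝓝 (bit (τ z₀) u n))
      rw [h5]
      exact tendsto_const_nhds.congr' (h4.mono fun _ h => h.symm)
    · have h4 : ∀ᶠ z in 𝓝 z₀, bit (τ z) u n = false := by
        filter_upwards [h2.eventually (gt_mem_nhds h3)] with z hz
        exact decide_eq_false (not_lt.2 hz.le)
      have h5 : bit (τ z₀) u n = false := decide_eq_false (not_lt.2 h3.le)
      change Tendsto _ _ (𝓝 (bit (τ z₀) u n))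
      rw [h5]
      exact tendsto_const_nhds.congr' (h4.mono fun _ h => h.symm)

lemma integrable_bit (t : ℕ → ℝ) (h : C(ℕ → Bool, ℝ)) :
    Integrable (fun u => h (bit t u)) P :=
  Integrable.of_bound (h.continuous.measurable.comp (measurable_bit _)).aestronglyMeasurable
    ‖h‖ (Eventually.of_forall fun _ => h.norm_coe_le_norm _)

/-- Averaging over Bernoulli bits with parameters `τ z`. -/
noncomputable def avg [CompactSpace Z] [FirstCountableTopology Z] (τ : C(Z, ℕ → ℝ)) :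
    C(ℕ → Bool, ℝ) →L[ℝ] C(Z, ℝ) :=
  LinearMap.mkContinuous
    { toFun := fun h => ⟨fun z => ∫ u, h (bit (τ z) u) ∂P, continuous_avg τ h⟩
      map_add' := by
        intro h k
        ext z
        exact integral_add (integrable_bit _ _) (integrable_bit _ _)
      map_smul' := by
        intro c h
        ext z
        exact integral_const_mul c _ } 1 (by
    intro h
    rw [one_mul, ContinuousMap.norm_le _ (norm_nonneg _)]
    intro z
    refine (norm_integral_le_of_norm_le_const (Eventually.of_forall fun u =>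
      h.norm_coe_le_norm (bit (τ z) u))).trans ?_
    simp)

lemma avg_apply [CompactSpace Z] [FirstCountableTopology Z] (τ : C(Z, ℕ → ℝ))
    (h : C(ℕ → Bool, ℝ)) (z : Z) : avg τ h z = ∫ u, h (bit (τ z) u) ∂P := rfl

lemma avg_nonneg [CompactSpace Z] [FirstCountableTopology Z] (τ : C(Z, ℕ → ℝ))
    (h : C(ℕ → Bool, ℝ)) (hh : 0 ≤ h) : 0 ≤ avg τ h := fun _ =>
  integral_nonneg fun _ => hh _

/-- If `h = v` on the bit sequences compatible with `τ z` then the average at `z` is `v`. -/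
lemma avg_eq [CompactSpace Z] [FirstCountableTopology Z] (τ : C(Z, ℕ → ℝ))
    (h : C(ℕ → Bool, ℝ)) (z : Z) (v : ℝ)
    (hv : ∀ ε : ℕ → Bool, (∀ n, (ε n = true → 0 < τ z n) ∧ (ε n = false → τ z n < 1)) → h ε = v) :
    avg τ h z = v := by
  rw [avg_apply]
  have h1 : ∀ᵐ u ∂P, ∀ n, ((u n : I) : ℝ) ≠ 1 := ae_all_iff.2 fun n => ae_ne n _
  have h2 : ∀ᵐ u ∂P, h (bit (τ z) u) = v := by
    filter_upwards [h1] with u hu
    refine hv _ fun n => ⟨fun h3 => ?_, fun h3 => ?_⟩
    · exact lt_of_le_of_lt (u n).2.1 (of_decide_eq_true h3)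
    · exact lt_of_le_of_lt (not_lt.1 (of_decide_eq_false h3)) (lt_of_le_of_ne (u n).2.2 (hu n))
  rw [integral_congr_ae h2]
  simp

/-! ### Milutin's lemma -/

/-- Positive operators with `T 1 = 1`. -/
def PosUnital {X Y : Type} [TopologicalSpace X] [TopologicalSpace Y] [CompactSpace X]
    [CompactSpace Y] (T : C(X, ℝ) →L[ℝ] C(Y, ℝ)) : Prop :=
  (∀ f, 0 ≤ f → 0 ≤ T f) ∧ T 1 = 1

section pull
variable {X Y : Type} [TopologicalSpace X] [TopologicalSpace Y] [CompactSpace X] [CompactSpace Y]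

/-- Composition with a continuous map. -/
noncomputable def pull (f : C(X, Y)) : C(Y, ℝ) →L[ℝ] C(X, ℝ) :=
  LinearMap.mkContinuous
    { toFun := fun h => h.comp f
      map_add' := fun _ _ => rfl
      map_smul' := fun _ _ => rfl } 1 (by
    intro h
    rw [one_mul, ContinuousMap.norm_le _ (norm_nonneg _)]
    intro z
    exact h.norm_coe_le_norm _)

lemma pull_apply (f : C(X, Y)) (h : C(Y, ℝ)) (x : X) : pull f h x = h (f x) := rfl

lemma pull_posUnital (f : C(X, Y)) : PosUnital (pull f) :=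
  ⟨fun _ hg x => hg (f x), rfl⟩

end pull

lemma avg_posUnital [CompactSpace Z] [FirstCountableTopology Z] (τ : C(Z, ℕ → ℝ)) :
    PosUnital (avg τ) := by
  refine ⟨avg_nonneg τ, ?_⟩
  ext z
  exact avg_eq τ 1 z 1 fun _ _ => rfl

lemma milutin (M : Type) [TopologicalSpace M] [CompactSpace M] [T2Space M]
    [SecondCountableTopology M] [Nonempty M] :
    ∃ (A : C(ℕ → Bool, ℝ) →L[ℝ] C(M, ℝ)) (B : C(M, ℝ) →L[ℝ] C(ℕ → Bool, ℝ)),
      PosUnital A ∧ PosUnital B ∧ ∀ g, A (B g) = g := by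
  obtain ⟨g, hg⟩ := TopologicalSpace.exists_dense_seq C(M, ℝ)
  have hsep : ∀ z z' : M, z ≠ z' → ∃ n, g n z < 1 / 3 ∧ 2 / 3 < g n z' := by
    intro z z' hne
    obtain ⟨f, hf0, hf1, -⟩ := exists_continuous_zero_one_of_isClosed
      (isClosed_singleton (x := z)) (isClosed_singleton (x := z')) (by simpa using hne)
    obtain ⟨n, hn⟩ := hg.exists_dist_lt f (by norm_num : (0 : ℝ) < 1 / 3)
    have h0 : f z = 0 := hf0 rfl
    have h1 : f z' = 1 := hf1 rfl
    have h2 := (ContinuousMap.dist_apply_le_dist (f := f) (g := g n) z).trans_lt hn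
    have h3 := (ContinuousMap.dist_apply_le_dist (f := f) (g := g n) z').trans_lt hn
    rw [h0, Real.dist_eq, abs_lt] at h2
    rw [h1, Real.dist_eq, abs_lt] at h3
    exact ⟨n, by linarith, by linarith⟩
  let Γ : Set ((ℕ → Bool) × M) :=
    {q | ∀ n, (q.1 n = true → 1 / 3 ≤ g n q.2) ∧ (q.1 n = false → g n q.2 ≤ 2 / 3)}
  have hΓ : IsClosed Γ := by
    have h1 : ∀ (n : ℕ) (b : Bool), IsOpen {q : (ℕ → Bool) × M | q.1 n = b} := fun n b => by
      have h : Continuous fun q : (ℕ → Bool) × M => q.1 n :=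
        (continuous_apply n).comp continuous_fst
      exact (isOpen_discrete ({b} : Set Bool)).preimage h
    simp only [Γ, Set.ofPred_forall, Set.ofPred_and]
    refine isClosed_iInter fun n => IsClosed.inter ?_ ?_
    · exact isClosed_imp (h1 n true)
        (isClosed_le continuous_const ((g n).continuous.comp continuous_snd))
    · exact isClosed_imp (h1 n false)
        (isClosed_le ((g n).continuous.comp continuous_snd) continuous_const)
  have hΓc : CompactSpace Γ := isCompact_iff_compactSpace.1 hΓ.isCompact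
  let D : Set (ℕ → Bool) := Prod.fst '' Γ
  have hD : IsClosed D := (hΓ.isCompact.image continuous_fst).isClosed
  have huniq : ∀ ε z z', (ε, z) ∈ Γ → (ε, z') ∈ Γ → z = z' := by
    intro ε z z' h h'
    by_contra hne
    obtain ⟨n, h1, h2⟩ := hsep z z' hne
    cases hε : ε n with
    | true =>
      have := (h n).1 hε
      simp only at this
      linarith
    | false =>
      have := (h' n).2 hε
      simp only at this
      linarith
  let φ : Γ ≃ D := Equiv.ofBijective (fun q => ⟨q.1.1, Set.mem_image_of_mem _ q.2⟩) (by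
    constructor
    · rintro ⟨⟨ε, z⟩, h⟩ ⟨⟨ε', z'⟩, h'⟩ heq
      have h1 : ε = ε' := congrArg Subtype.val heq
      subst h1
      have := huniq ε z z' h h'
      subst this
      rfl
    · rintro ⟨ε, ⟨q, hq, rfl⟩⟩
      exact ⟨⟨q, hq⟩, rfl⟩)
  have hφ : Continuous φ := (continuous_fst.comp continuous_subtype_val).subtype_mk _
  let Φ : Γ ≃ₜ D := Continuous.homeoOfEquivCompactToT2 hφ
  have hDne : D.Nonempty := by
    obtain ⟨z⟩ := (inferInstance : Nonempty M)
    refine ⟨fun n => decide (1 / 3 ≤ g n z), ⟨_, z⟩, fun n => ⟨fun h => ?_, fun h => ?_⟩, rfl⟩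
    · exact of_decide_eq_true h
    · have := of_decide_eq_false h
      simp only at this ⊢
      linarith [not_le.1 this]
  obtain ⟨r, hr, -, hrc⟩ := PiNat.exists_retraction_subtype_of_isClosed hD hDne
  let ψ : C(ℕ → Bool, M) := ⟨fun ε => (Φ.symm (r ε)).1.2,
    continuous_snd.comp (continuous_subtype_val.comp (Φ.symm.continuous.comp hrc))⟩
  have hψ : ∀ ε z, (ε, z) ∈ Γ → ψ ε = z := by
    intro ε z h
    have h1 : r ε = ⟨ε, Set.mem_image_of_mem Prod.fst h⟩ := hr ⟨ε, Set.mem_image_of_mem Prod.fst h⟩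
    have h2 : Φ ⟨(ε, z), h⟩ = ⟨ε, Set.mem_image_of_mem Prod.fst h⟩ := rfl
    change (Φ.symm (r ε)).1.2 = z
    rw [h1, ← h2, Φ.symm_apply_apply]
  let τ : C(M, ℕ → ℝ) := ⟨fun z n => 3 * g n z - 1,
    continuous_pi fun n => (continuous_const.mul (g n).continuous).sub continuous_const⟩
  refine ⟨avg τ, pull ψ, avg_posUnital τ, pull_posUnital ψ, fun h => ?_⟩
  ext z
  refine avg_eq τ _ z _ fun ε hε => ?_
  rw [pull_apply, hψ ε z]
  intro n
  have h1 : τ z n = 3 * g n z - 1 := rfl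
  refine ⟨fun h2 => ?_, fun h2 => ?_⟩
  · have := (hε n).1 h2
    simp only
    linarith
  · have := (hε n).2 h2
    simp only
    linarith

lemma milutin' (K : Type) [MetricSpace K] [CompactSpace K] [Uncountable K] :
    ∃ (R : C(K, ℝ) →L[ℝ] C(ℕ → Bool, ℝ)) (E : C(ℕ → Bool, ℝ) →L[ℝ] C(K, ℝ)),
      PosUnital R ∧ PosUnital E ∧ ∀ h, R (E h) = h := by
  obtain ⟨c, -, hc, hinj⟩ := isClosed_univ.exists_nat_bool_injection_of_not_countable (α := K)
    (by rw [Set.countable_univ_iff]; exact not_countable)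
  have hemb : IsClosedEmbedding c := hc.isClosedEmbedding hinj
  let f : C(ℕ → Bool, ℕ → ℝ) := ⟨fun ε n => if ε n = true then 1 else 0,
    continuous_pi fun n => (continuous_of_discreteTopology
      (f := fun b : Bool => if b = true then (1 : ℝ) else 0)).comp (continuous_apply n)⟩
  obtain ⟨τ, hτ⟩ := ContinuousMap.exists_extension hemb f
  have hτ' : ∀ ε, τ (c ε) = f ε := fun ε => DFunLike.congr_fun hτ ε
  refine ⟨pull ⟨c, hc⟩, avg τ, pull_posUnital _, avg_posUnital τ, fun h => ?_⟩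
  ext ε
  rw [pull_apply]
  refine avg_eq τ _ _ _ fun ε' hε' => ?_
  congr 1
  funext n
  have h1 : τ (c ε) n = if ε n = true then 1 else 0 := congrFun (hτ' ε) n
  have h2 := hε' n
  simp only [ContinuousMap.coe_mk] at h2
  rw [h1] at h2
  cases h3 : ε' n with
  | true =>
    have := h2.1 h3
    by_contra h4
    have h5 : ε n = false := by
      cases h6 : ε n
      · rfl
      · exact absurd h6.symm h4
    rw [h5] at this
    simp at this
  | false =>
    have := h2.2 h3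
    by_contra h4
    have h5 : ε n = true := by
      cases h6 : ε n
      · exact absurd h6.symm h4
      · rfl
    rw [h5] at this
    simp at this

/-- `C(M)` is a positive unital retract of `C(K)`. -/
lemma retract (K M : Type) [MetricSpace K] [CompactSpace K] [Uncountable K]
    [TopologicalSpace M] [CompactSpace M] [T2Space M] [SecondCountableTopology M] [Nonempty M] :
    ∃ (A : C(K, ℝ) →L[ℝ] C(M, ℝ)) (B : C(M, ℝ) →L[ℝ] C(K, ℝ)),
      PosUnital A ∧ PosUnital B ∧ ∀ g, A (B g) = g := by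
  obtain ⟨A, B, hA, hB, hAB⟩ := milutin M
  obtain ⟨R, E, hR, hE, hRE⟩ := milutin' K
  refine ⟨A.comp R, E.comp B, ⟨fun f hf => hA.1 _ (hR.1 _ hf), ?_⟩,
    ⟨fun f hf => hE.1 _ (hB.1 _ hf), ?_⟩, fun g => ?_⟩
  · rw [ContinuousLinearMap.comp_apply, hR.2, hA.2]
  · rw [ContinuousLinearMap.comp_apply, hB.2, hE.2]
  · rw [ContinuousLinearMap.comp_apply, ContinuousLinearMap.comp_apply, hRE, hAB]

/-! ### Two isomorphisms -/

section abstractPart
variable {W G : Type} [NormedAddCommGroup W] [NormedSpace ℝ W] [CompleteSpace W]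
  [NormedAddCommGroup G] [NormedSpace ℝ G] [CompleteSpace G]

lemma isUnit_one_add {E : Type} [NormedAddCommGroup E] [NormedSpace ℝ E] [CompleteSpace E]
    (Q : E →L[ℝ] E) (hQ : ∀ x, ‖Q x‖ ≤ 1 / 2 * ‖x‖) : Function.Bijective fun x => x + Q x := by
  have h1 : ‖-Q‖ < 1 := by
    rw [norm_neg]
    exact (Q.opNorm_le_bound (by norm_num) hQ).trans_lt (by norm_num)
  let e := ContinuousLinearEquiv.unitsEquiv ℝ E (Units.oneSub (-Q) h1)
  have h2 : (fun x => x + Q x) = e := by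
    funext x
    change x + Q x = (1 - -Q) x
    simp
  rw [h2]
  exact e.bijective

omit [CompleteSpace G] in
/-- `a ↦ (a / 3 + (2 / 3) s a, g a)` is bijective if `a ↦ (s a, g a)` is an isometry onto. -/
lemma bij1 (V : (W × G) ≃L[ℝ] W) (hV : ∀ y, ‖V y‖ = ‖y‖) :
    Function.Bijective fun a : W =>
      (((1 / 3 : ℝ) • a + (2 / 3 : ℝ) • (V.symm a).1, (V.symm a).2) : W × G) := by
  let J : W →L[ℝ] W × G := ContinuousLinearMap.inl ℝ W G
  let Q : W →L[ℝ] W := (1 / 2 : ℝ) • ((V : (W × G) →L[ℝ] W).comp J)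
  have hQ : ∀ x, ‖Q x‖ ≤ 1 / 2 * ‖x‖ := by
    intro x
    have : Q x = (1 / 2 : ℝ) • V (x, 0) := rfl
    rw [this, norm_smul, hV, Prod.norm_def]
    simp
  have h := isUnit_one_add Q hQ
  let D : (W × G) ≃ (W × G) :=
    { toFun := fun y => ((2 / 3 : ℝ) • y.1, y.2)
      invFun := fun y => ((3 / 2 : ℝ) • y.1, y.2)
      left_inv := fun y => by ext <;> simp [smul_smul]
      right_inv := fun y => by ext <;> simp [smul_smul] }
  have h2 : (fun a : W => (((1 / 3 : ℝ) • a + (2 / 3 : ℝ) • (V.symm a).1, (V.symm a).2) : W × G))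
      = D ∘ V.symm ∘ (fun x => x + Q x) := by
    funext a
    have h3 : V.symm (Q a) = ((1 / 2 : ℝ) • a, 0) := by
      have : Q a = (1 / 2 : ℝ) • V (a, 0) := rfl
      rw [this, map_smul, V.symm_apply_apply]
      simp
    simp only [Function.comp_apply, map_add, h3]
    ext
    · simp [D, smul_smul, add_comm]
      norm_num
    · simp [D]
  rw [h2]
  exact D.bijective.comp (V.symm.bijective.comp h)

lemma bij2 (V : (W × G) ≃L[ℝ] W) (hV : ∀ y, ‖V y‖ = ‖y‖) :
    Function.Bijective fun y : W × G => (1 / 3 : ℝ) • y.1 + (2 / 3 : ℝ) • V y := by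
  let Q : W × G →L[ℝ] W × G :=
    (1 / 2 : ℝ) • ((V.symm : W →L[ℝ] (W × G)).comp (ContinuousLinearMap.fst ℝ W G))
  have hV' : ∀ x, ‖V.symm x‖ = ‖x‖ := fun x => by rw [← hV, V.apply_symm_apply]
  have hQ : ∀ x, ‖Q x‖ ≤ 1 / 2 * ‖x‖ := by
    intro x
    have : Q x = (1 / 2 : ℝ) • V.symm x.1 := rfl
    rw [this, norm_smul, hV']
    have := norm_fst_le x
    rw [Real.norm_eq_abs, abs_of_pos (by norm_num)]
    linarith
  have h := isUnit_one_add Q hQ
  have h2 : (fun y : W × G => (1 / 3 : ℝ) • y.1 + (2 / 3 : ℝ) • V y)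
      = (fun w => (2 / 3 : ℝ) • w) ∘ V ∘ (fun x => x + Q x) := by
    funext y
    have : Q y = (1 / 2 : ℝ) • V.symm y.1 := rfl
    simp only [Function.comp_apply, map_add, this, map_smul, V.apply_symm_apply, smul_add,
      smul_smul]
    rw [add_comm]
    norm_num
  rw [h2]
  refine Function.Bijective.comp ?_ (V.bijective.comp h)
  exact (LinearEquiv.smulOfNeZero ℝ W (2 / 3 : ℝ) (by norm_num)).bijective

end abstractPart

section shift
variable (Z : Type) [TopologicalSpace Z] [CompactSpace Z] [T2Space Z]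

/-- The map `z ↦ (0, z)`, `(n, z) ↦ (n + 1, z)`. -/
def shiftFun : Z ⊕ (ℕ∞ × Z) → ℕ∞ × Z :=
  Sum.elim (fun z => (0, z)) (fun q => (q.1 + 1, q.2))

omit [CompactSpace Z] [T2Space Z] in
lemma continuous_shiftFun : Continuous (shiftFun Z) :=
  Continuous.sumElim (by fun_prop) (by fun_prop)

omit [TopologicalSpace Z] [CompactSpace Z] [T2Space Z] in
lemma bijective_shiftFun : Function.Bijective (shiftFun Z) := by
  constructor
  · rintro (z | ⟨n, z⟩) (z' | ⟨n', z'⟩) h
    · simpa [shiftFun] using h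
    · have h0 : (0 : ℕ∞) = n' + 1 := congrArg Prod.fst h
      exact absurd h0.symm (by simp)
    · have h0 : n + 1 = (0 : ℕ∞) := congrArg Prod.fst h
      exact absurd h0 (by simp)
    · simpa [shiftFun] using h
  · rintro ⟨n, z⟩
    by_cases hn : n = 0
    · exact ⟨Sum.inl z, by simp [shiftFun, hn]⟩
    · refine ⟨Sum.inr (n - 1, z), ?_⟩
      simp only [shiftFun, Sum.elim_inr, Prod.mk.injEq, and_true]
      exact tsub_add_cancel_of_le (Order.one_le_iff_ne_zero.2 hn)

/-- `Z ⊕ (ℕ∞ × Z) ≃ ℕ∞ × Z`. -/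
noncomputable def shiftHomeo : Z ⊕ (ℕ∞ × Z) ≃ₜ ℕ∞ × Z :=
  Continuous.homeoOfEquivCompactToT2 (f := Equiv.ofBijective _ (bijective_shiftFun Z))
    (continuous_shiftFun Z)

/-- The unshift `C(ℕ∞ × Z) × C(Z) ≃ C(ℕ∞ × Z)`. -/
noncomputable def unshiftL : (C(ℕ∞ × Z, ℝ) × C(Z, ℝ)) ≃ₗ[ℝ] C(ℕ∞ × Z, ℝ) where
  toFun y := ⟨fun m => Sum.elim y.2 y.1 ((shiftHomeo Z).symm m),
    (y.2.continuous.sumElim y.1.continuous).comp (shiftHomeo Z).symm.continuous⟩
  invFun a := (a.comp ⟨fun q => shiftHomeo Z (Sum.inr q), by fun_prop⟩,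
    a.comp ⟨fun q => shiftHomeo Z (Sum.inl q), by fun_prop⟩)
  map_add' y y' := by
    ext m
    simp only [ContinuousMap.coe_mk, ContinuousMap.add_apply]
    cases (shiftHomeo Z).symm m <;> simp
  map_smul' c y := by
    ext m
    simp only [ContinuousMap.coe_mk, ContinuousMap.smul_apply]
    cases (shiftHomeo Z).symm m <;> simp
  left_inv y := by
    ext m <;> simp
  right_inv a := by
    ext m
    obtain ⟨x, rfl⟩ := (shiftHomeo Z).surjective m
    simp only [ContinuousMap.coe_mk, Homeomorph.symm_apply_apply]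
    cases x <;> simp

lemma norm_unshiftL (y : C(ℕ∞ × Z, ℝ) × C(Z, ℝ)) : ‖unshiftL Z y‖ = ‖y‖ := by
  apply le_antisymm
  · rw [ContinuousMap.norm_le _ (norm_nonneg _)]
    intro m
    change ‖Sum.elim y.2 y.1 ((shiftHomeo Z).symm m)‖ ≤ _
    cases (shiftHomeo Z).symm m with
    | inl z => exact (y.2.norm_coe_le_norm z).trans (norm_snd_le y)
    | inr q => exact (y.1.norm_coe_le_norm q).trans (norm_fst_le y)
  · rw [Prod.norm_def]
    refine max_le ?_ ?_
    · rw [ContinuousMap.norm_le _ (norm_nonneg _)]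
      intro q
      have := (unshiftL Z y).norm_coe_le_norm (shiftHomeo Z (Sum.inr q))
      change ‖Sum.elim y.2 y.1 ((shiftHomeo Z).symm (shiftHomeo Z (Sum.inr q)))‖ ≤ _ at this
      rwa [Homeomorph.symm_apply_apply] at this
    · rw [ContinuousMap.norm_le _ (norm_nonneg _)]
      intro q
      have := (unshiftL Z y).norm_coe_le_norm (shiftHomeo Z (Sum.inl q))
      change ‖Sum.elim y.2 y.1 ((shiftHomeo Z).symm (shiftHomeo Z (Sum.inl q)))‖ ≤ _ at this
      rwa [Homeomorph.symm_apply_apply] at this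

/-- The unshift as a continuous linear equivalence. -/
noncomputable def V : (C(ℕ∞ × Z, ℝ) × C(Z, ℝ)) ≃L[ℝ] C(ℕ∞ × Z, ℝ) :=
  (LinearIsometryEquiv.mk (unshiftL Z) (norm_unshiftL Z)).toContinuousLinearEquiv

lemma norm_V (y : C(ℕ∞ × Z, ℝ) × C(Z, ℝ)) : ‖V Z y‖ = ‖y‖ := norm_unshiftL Z y

lemma V_nonneg (b : C(ℕ∞ × Z, ℝ)) (g : C(Z, ℝ)) (hb : 0 ≤ b) (hg : 0 ≤ g) : 0 ≤ V Z (b, g) := by
  intro m
  change 0 ≤ Sum.elim g b ((shiftHomeo Z).symm m)
  cases (shiftHomeo Z).symm m with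
  | inl z => exact hg z
  | inr q => exact hb q

lemma V_one : V Z (1, 1) = 1 := by
  ext m
  change Sum.elim (1 : C(Z, ℝ)) (1 : C(ℕ∞ × Z, ℝ)) ((shiftHomeo Z).symm m) = 1
  cases (shiftHomeo Z).symm m <;> simp

lemma V_symm_nonneg (a : C(ℕ∞ × Z, ℝ)) (ha : 0 ≤ a) :
    0 ≤ ((V Z).symm a).1 ∧ 0 ≤ ((V Z).symm a).2 :=
  ⟨fun q => ha (shiftHomeo Z (Sum.inr q)), fun q => ha (shiftHomeo Z (Sum.inl q))⟩

end shift

section isos
variable (K Z : Type) [MetricSpace K] [CompactSpace K] [Uncountable K]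
  [MetricSpace Z] [CompactSpace Z] [Nonempty Z]

lemma iso1 : ∃ T : C(K, ℝ) ≃L[ℝ] (C(K, ℝ) × C(Z, ℝ)),
    (∀ f, 0 ≤ f → 0 ≤ (T f).1 ∧ 0 ≤ (T f).2) ∧ T 1 = (1, 1) := by
  obtain ⟨A, B, hA, hB, hAB⟩ := retract K (ℕ∞ × Z)
  let T : C(K, ℝ) →L[ℝ] (C(K, ℝ) × C(Z, ℝ)) :=
    ((1 / 3 : ℝ) • ContinuousLinearMap.id ℝ _ + (2 / 3 : ℝ) • B.comp
      ((ContinuousLinearMap.fst ℝ _ _).comp
        (((V Z).symm : C(ℕ∞ × Z, ℝ) →L[ℝ] (C(ℕ∞ × Z, ℝ) × C(Z, ℝ))).comp A))).prod
      ((ContinuousLinearMap.snd ℝ _ _).comp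
        (((V Z).symm : C(ℕ∞ × Z, ℝ) →L[ℝ] (C(ℕ∞ × Z, ℝ) × C(Z, ℝ))).comp A))
  have hT : ∀ f, T f = ((1 / 3 : ℝ) • f + (2 / 3 : ℝ) • B ((V Z).symm (A f)).1,
    ((V Z).symm (A f)).2) := fun f => rfl
  have hbij := bij1 (V Z) (norm_V Z)
  have hinj : (T : C(K, ℝ) →ₗ[ℝ] (C(K, ℝ) × C(Z, ℝ))).ker = ⊥ := by
    rw [LinearMap.ker_eq_bot']
    intro f hf
    have hf' : T f = 0 := hf
    rw [hT, Prod.mk_eq_zero] at hf'
    have h1 : A f = 0 := by
      apply hbij.1
      simp only [map_zero, smul_zero, Prod.fst_zero, Prod.snd_zero, add_zero]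
      have h2 := congrArg A hf'.1
      rw [map_add, map_smul, map_smul, hAB, map_zero] at h2
      rw [h2, hf'.2]
    have h3 := hf'.1
    rw [h1] at h3
    simpa using h3
  have hsurj : (T : C(K, ℝ) →ₗ[ℝ] (C(K, ℝ) × C(Z, ℝ))).range = ⊤ := by
    rw [LinearMap.range_eq_top]
    rintro ⟨F, γ⟩
    obtain ⟨a, ha⟩ := hbij.2 (A F, γ)
    simp only [Prod.mk.injEq] at ha
    have h1 : A ((3 : ℝ) • (F - (2 / 3 : ℝ) • B ((V Z).symm a).1)) = a := by
      rw [map_smul, map_sub, map_smul, hAB, ← ha.1]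
      simp [smul_smul]
    refine ⟨(3 : ℝ) • (F - (2 / 3 : ℝ) • B ((V Z).symm a).1), ?_⟩
    change T _ = _
    rw [hT, h1, ha.2]
    ext1
    · simp [smul_smul]
    · rfl
  refine ⟨ContinuousLinearEquiv.ofBijective T hinj hsurj, ?_, ?_⟩
  · intro f hf
    have h1 := V_symm_nonneg Z (A f) (hA.1 f hf)
    change 0 ≤ (T f).1 ∧ 0 ≤ (T f).2
    rw [hT]
    refine ⟨?_, h1.2⟩
    have h2 := hB.1 _ h1.1
    intro x
    have h3 : (0 : ℝ) ≤ f x := hf x
    have h4 : (0 : ℝ) ≤ B ((V Z).symm (A f)).1 x := h2 x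
    change (0 : ℝ) ≤ (1 / 3) * f x + (2 / 3) * B ((V Z).symm (A f)).1 x
    positivity
  · change T 1 = _
    rw [hT, hA.2]
    have h1 : (V Z).symm 1 = (1, 1) := (V Z).symm_apply_eq.2 (V_one Z).symm
    rw [h1, hB.2]
    ext x
    · simp
      norm_num
    · simp

lemma iso2 : ∃ T : (C(K, ℝ) × C(Z, ℝ)) ≃L[ℝ] C(K, ℝ),
    (∀ f g, 0 ≤ f → 0 ≤ g → 0 ≤ T (f, g)) ∧ T (1, 1) = 1 := by
  obtain ⟨A, B, hA, hB, hAB⟩ := retract K (ℕ∞ × Z)
  let T : (C(K, ℝ) × C(Z, ℝ)) →L[ℝ] C(K, ℝ) :=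
    (1 / 3 : ℝ) • ContinuousLinearMap.fst ℝ _ _ + (2 / 3 : ℝ) • B.comp
      ((V Z : _ →L[ℝ] _).comp (A.prodMap (ContinuousLinearMap.id ℝ _)))
  have hT : ∀ y, T y = (1 / 3 : ℝ) • y.1 + (2 / 3 : ℝ) • B (V Z (A y.1, y.2)) := fun f => rfl
  have hbij := bij2 (V Z) (norm_V Z)
  have hinj : (T : (C(K, ℝ) × C(Z, ℝ)) →ₗ[ℝ] C(K, ℝ)).ker = ⊥ := by
    rw [LinearMap.ker_eq_bot']
    rintro ⟨f, g⟩ hf
    have hf' : T (f, g) = 0 := hf
    rw [hT] at hf'
    have h1 : (A f, g) = (0 : C(ℕ∞ × Z, ℝ) × C(Z, ℝ)) := by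
      apply hbij.1
      simp only [map_zero, smul_zero, Prod.fst_zero, add_zero]
      have h2 := congrArg A hf'
      rwa [map_add, map_smul, map_smul, hAB, map_zero] at h2
    simp only [h1, map_zero, smul_zero, add_zero] at hf'
    have h3 : f = 0 := by simpa using hf'
    rw [h3, (Prod.mk_eq_zero.1 h1).2]
    rfl
  have hsurj : (T : (C(K, ℝ) × C(Z, ℝ)) →ₗ[ℝ] C(K, ℝ)).range = ⊤ := by
    rw [LinearMap.range_eq_top]
    intro F
    obtain ⟨⟨a, g⟩, ha⟩ := hbij.2 (A F)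
    simp only at ha
    have h1 : A ((3 : ℝ) • (F - (2 / 3 : ℝ) • B (V Z (a, g)))) = a := by
      rw [map_smul, map_sub, map_smul, hAB, ← ha]
      simp [smul_smul]
    refine ⟨((3 : ℝ) • (F - (2 / 3 : ℝ) • B (V Z (a, g))), g), ?_⟩
    change T _ = _
    rw [hT]
    simp only [h1]
    simp [smul_smul]
  refine ⟨ContinuousLinearEquiv.ofBijective T hinj hsurj, ?_, ?_⟩
  · intro f g hf hg
    have h1 := V_nonneg Z (A f) g (hA.1 f hf) hg
    change 0 ≤ T (f, g)
    rw [hT]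
    have h2 := hB.1 _ h1
    intro x
    have h3 : (0 : ℝ) ≤ f x := hf x
    have h4 : (0 : ℝ) ≤ B (V Z (A f, g)) x := h2 x
    change (0 : ℝ) ≤ (1 / 3) * f x + (2 / 3) * B (V Z (A f, g)) x
    positivity
  · change T (1, 1) = _
    rw [hT, hA.2, V_one, hB.2]
    ext x
    simp
    norm_num

end isos

/-- Any two spaces of continuous functions on uncountable compact metric spaces are isomorphic
through a positive operator with `T 1 = 1`. -/
theorem positive_isomorphism (K L : Type) [MetricSpace K] [CompactSpace K] [Uncountable K]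
    [MetricSpace L] [CompactSpace L] [Uncountable L] :
    ∃ T : C(K, ℝ) ≃L[ℝ] C(L, ℝ), (∀ f, 0 ≤ f → 0 ≤ T f) ∧ T 1 = 1 := by
  obtain ⟨T₁, h₁, h₁'⟩ := iso1 K L
  obtain ⟨T₂, h₂, h₂'⟩ := iso2 L K
  refine ⟨(T₁.trans (ContinuousLinearEquiv.prodComm ℝ _ _)).trans T₂, fun f hf => ?_, ?_⟩
  · exact h₂ _ _ (h₁ f hf).2 (h₁ f hf).1
  · change T₂ ((T₁ 1).2, (T₁ 1).1) = 1
    rw [h₁', h₂']

/-- The full answer: for every uncountable compact metric space `K` there are isomorphisms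
`C(K) → C([0,1])` with `T ≥ 0` and, also, with `T⁻¹ ≥ 0`; more generally for two arbitrary
uncountable compact metric spaces. -/
theorem result :
    (∀ (K : Type) [MetricSpace K] [CompactSpace K] [Uncountable K],
      (∃ T : C(K, ℝ) ≃L[ℝ] C(I, ℝ), (∀ f, 0 ≤ f → 0 ≤ T f) ∧ T 1 = 1) ∧
      (∃ T : C(K, ℝ) ≃L[ℝ] C(I, ℝ), (∀ g, 0 ≤ g → 0 ≤ T.symm g) ∧ T 1 = 1)) ∧
    (∀ (K L : Type) [MetricSpace K] [CompactSpace K] [Uncountable K]
      [MetricSpace L] [CompactSpace L] [Uncountable L],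
      ∃ T : C(K, ℝ) ≃L[ℝ] C(L, ℝ), (∀ f, 0 ≤ f → 0 ≤ T f) ∧ T 1 = 1) := by
  have hI : Uncountable I := by
    have : ¬ (Set.Icc (0 : ℝ) 1).Countable := by
      intro h
      exact absurd (Cardinal.le_aleph0_iff_set_countable.2 h)
        (by rw [Cardinal.mk_Icc_real zero_lt_one]; exact not_le.2 Cardinal.aleph0_lt_continuum)
    exact (uncountable_iff_not_countable _).2 fun h => this (Set.countable_coe_iff.1 h)
  refine ⟨fun K _ _ _ => ⟨positive_isomorphism K I, ?_⟩, fun K L _ _ _ _ _ _ =>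
    positive_isomorphism K L⟩
  obtain ⟨T, hT, hT'⟩ := positive_isomorphism I K
  refine ⟨T.symm, hT, ?_⟩
  rw [← hT', T.symm_apply_apply]

end Pool.Agent.Results.MP_cf3d36_an.PositiveIsomorphism
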